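import Mathlib

/-! Stable primes of `x^2+1`: necessary conditions on the critical orbit. -/

set_option autoImplicit false

open Polynomial

namespace Pool.Agent.W401S

/-- the critical orbit `0, 1, 2, 5, 26, 677, ...` -/
def orb : ℕ → ℕ
  | 0 => 0
  | n + 1 => orb n ^ 2 + 1

/-- iterates of `x^2+1` over `ZMod p` -/
noncomputable def It (p : ℕ) (n : ℕ) : Polynomial (ZMod p) :=
  (fun g : Polynomial (ZMod p) => (X ^ 2 + 1 : Polynomial (ZMod p)).comp g)^[n] X

lemma It_zero (p : ℕ) : It p 0 = X := rfl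

lemma It_succ (p n : ℕ) : It p (n + 1) = It p n ^ 2 + 1 := by
  unfold It
  rw [Function.iterate_succ_apply']
  simp

lemma It_succ' (p n : ℕ) : It p (n + 1) = (It p n).comp (X ^ 2 + 1) := by
  induction n with
  | zero => rw [It_succ, It_zero]; simp
  | succ n ih =>
    rw [It_succ p (n + 1)]
    conv_rhs => rw [It_succ p n]
    rw [ih]; simp

lemma It_eval (p n : ℕ) : (It p n).eval 1 = ((orb (n + 1) : ℕ) : ZMod p) := by
  induction n with
  | zero => simp [It_zero, orb]
  | succ n ih => rw [It_succ, orb]; simp [ih]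

lemma It_monic_deg (p : ℕ) [Fact p.Prime] (n : ℕ) :
    (It p n).Monic ∧ (It p n).natDegree = 2 ^ n := by
  induction n with
  | zero => exact ⟨by rw [It_zero]; exact monic_X, by rw [It_zero]; simp⟩
  | succ n ih =>
    obtain ⟨h1, h2⟩ := ih
    have hm : (It p n ^ 2).Monic := h1.pow 2
    have hd : (It p n ^ 2).natDegree = 2 ^ (n + 1) := by rw [h1.natDegree_pow, h2]; ring
    have hlt : (1 : (ZMod p)[X]).degree < (It p n ^ 2).degree := by
      rw [degree_one, degree_eq_natDegree hm.ne_zero, hd]
      exact_mod_cast pow_pos (by norm_num : 0 < 2) (n + 1)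
    rw [It_succ]
    exact ⟨hm.add_of_left hlt, by rw [natDegree_add_eq_left_of_degree_lt hlt, hd]⟩

/-- The converse half of the criterion over a finite field. -/
lemma not_irr_expand (p : ℕ) [Fact p.Prime] (hp : p ≠ 2) (h : (ZMod p)[X]) (hi : Irreducible h)
    (hm : h.Monic) (hd : Even h.natDegree) (hs : IsSquare (h.coeff 0)) :
    ¬ Irreducible (expand (ZMod p) 2 h) := by
  intro hI
  have : Fact (Irreducible h) := ⟨hi⟩
  have hd0 : 0 < h.natDegree := hi.natDegree_pos
  set K := AdjoinRoot h with hK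
  let pb := AdjoinRoot.powerBasis hm.ne_zero
  have : Module.Finite (ZMod p) K := pb.finite
  have : Finite K := Module.finite_of_finite (ZMod p)
  let _ : Fintype K := Fintype.ofFinite K
  set β : K := AdjoinRoot.root h with hβ
  have hmin : minpoly (ZMod p) β = h := by
    have := AdjoinRoot.minpoly_root hm.ne_zero
    rw [hm.leadingCoeff, inv_one, C_1, mul_one] at this
    exact this
  have hfin : Module.finrank (ZMod p) K = h.natDegree := by
    rw [pb.finrank, AdjoinRoot.powerBasis_dim]
  have hnorm : Algebra.norm (ZMod p) β = h.coeff 0 := by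
    have h1 := Algebra.PowerBasis.norm_gen_eq_coeff_zero_minpoly pb
    have h2 : pb.gen = β := AdjoinRoot.powerBasis_gen hm.ne_zero
    rw [h2, hmin, AdjoinRoot.powerBasis_dim, hd.neg_one_pow, one_mul] at h1
    exact h1
  have hc0 : h.coeff 0 ≠ 0 := by
    intro h0
    have hr : h.IsRoot 0 := by rw [IsRoot, ← coeff_zero_eq_eval_zero, h0]
    have h1 := degree_eq_one_of_irreducible_of_root hi hr
    have h2 : h.natDegree = 1 := natDegree_eq_of_degree_eq_some h1
    rw [h2] at hd
    exact absurd hd (by decide)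
  have hβ0 : β ≠ 0 := by
    intro h0
    rw [h0, Algebra.norm_zero] at hnorm
    exact hc0 hnorm.symm
  obtain ⟨s, hs⟩ := hs
  have hs0 : s ≠ 0 := by rintro rfl; exact hc0 (by rw [hs, mul_zero])
  have hchar : ringChar K ≠ 2 := by
    have : ringChar K = p := by
      have : CharP K p := charP_of_injective_algebraMap (algebraMap (ZMod p) K).injective p
      exact ringChar.eq K p |>.symm ▸ rfl
    rw [this]; exact hp
  have hsq : IsSquare β := by
    rw [FiniteField.isSquare_iff hchar hβ0]
    have h1 := FiniteField.algebraMap_norm_eq_pow (K := ZMod p) (K' := K) (x := β)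
    rw [hnorm, hs, Nat.card_zmod, Nat.card_eq_fintype_card] at h1
    have hcard : Fintype.card K = p ^ h.natDegree := by
      rw [Module.card_eq_pow_finrank (K := ZMod p) (V := K), ZMod.card, hfin]
    have hodd : p % 2 = 1 := (Fact.out : p.Prime).eq_two_or_odd.resolve_left hp
    have hp2 := (Fact.out : p.Prime).two_le
    have hdvd : (p - 1) ∣ (Fintype.card K - 1) := by
      rw [hcard]; simpa using Nat.sub_dvd_pow_sub_pow p 1 h.natDegree
    have hKodd : Fintype.card K % 2 = 1 := by
      rw [hcard, Nat.pow_mod, hodd]; simp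
    obtain ⟨m, hmm⟩ := hdvd
    obtain ⟨r, hr⟩ : ∃ r, p = 2 * r + 1 := ⟨p / 2, by omega⟩
    have hr0 : 0 < 2 * r := by omega
    have e1 : (Fintype.card K - 1) / (p - 1) = m := by
      rw [hmm]; exact Nat.mul_div_cancel_left m (by omega)
    have e2 : Fintype.card K / 2 = m * r := by
      have h3 : Fintype.card K = 2 * (m * r) + 1 := by
        have h4 : 1 ≤ Fintype.card K := Fintype.card_pos
        have h5 : Fintype.card K - 1 = 2 * (m * r) := by rw [hmm, hr]; simp; ring
        omega
      omega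
    rw [e1] at h1
    rw [e2, pow_mul, ← h1, ← map_pow, ← sq, ← pow_mul, show 2 * r = p - 1 by omega,
      ZMod.pow_card_sub_one_eq_one hs0, map_one]
  obtain ⟨γ, hγ⟩ := hsq
  have hroot : aeval γ (expand (ZMod p) 2 h) = 0 := by
    rw [expand_aeval, sq, ← hγ]
    exact (AdjoinRoot.aeval_eq h).trans AdjoinRoot.mk_self
  have h1 : minpoly (ZMod p) γ ∣ expand (ZMod p) 2 h := minpoly.dvd _ _ hroot
  have h2 : (expand (ZMod p) 2 h).natDegree ≤ (minpoly (ZMod p) γ).natDegree := by
    have hγi : IsIntegral (ZMod p) γ := Algebra.IsIntegral.isIntegral γ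
    obtain ⟨c, hc⟩ := h1
    rcases hI.isUnit_or_isUnit hc with hu | hu
    · exact absurd hu (minpoly.not_isUnit (ZMod p) γ)
    · rw [hc, natDegree_mul (minpoly.ne_zero hγi) hu.ne_zero, natDegree_eq_zero_of_isUnit hu, add_zero]
  have h3 : (minpoly (ZMod p) γ).natDegree ≤ h.natDegree := by
    rw [← hfin]; exact minpoly.natDegree_le γ
  rw [natDegree_expand] at h2
  omega

/-- all iterates are irreducible -/
def Stable (p : ℕ) : Prop := ∀ n : ℕ, 1 ≤ n → Irreducible (It p n)

lemma two_zero : (1 : ZMod 2) + 1 = 0 := by decide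

lemma stable_ne_two : ¬ Stable 2 := by
  intro h
  have h1 := h 1 le_rfl
  have : Fact (Nat.Prime 2) := ⟨Nat.prime_two⟩
  have hr : (It 2 1).IsRoot 1 := by
    rw [It_succ, It_zero, IsRoot]; simp; exact two_zero
  have h2 := degree_eq_one_of_irreducible_of_root h1 hr
  have h3 : (It 2 1).natDegree = 1 := natDegree_eq_of_degree_eq_some h2
  rw [(It_monic_deg 2 1).2] at h3
  norm_num at h3

lemma neg_one_nonsq {p : ℕ} [Fact p.Prime] (h : Stable p) : ¬ IsSquare (-1 : ZMod p) := by
  rintro ⟨t, ht⟩
  have h1 := h 1 le_rfl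
  have hr : (It p 1).IsRoot t := by
    rw [It_succ, It_zero, IsRoot]; simp; rw [sq, ← ht]; ring
  have h2 := degree_eq_one_of_irreducible_of_root h1 hr
  have h3 : (It p 1).natDegree = 1 := natDegree_eq_of_degree_eq_some h2
  rw [(It_monic_deg p 1).2] at h3
  norm_num at h3

/-- At a stable prime all members of the critical orbit from the second on are non-squares. -/
theorem orb_nonsq {p : ℕ} [Fact p.Prime] (h : Stable p) (n : ℕ) (hn : 2 ≤ n) :
    ¬ IsSquare ((orb n : ℕ) : ZMod p) := by
  have hp : p ≠ 2 := by rintro rfl; exact stable_ne_two h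
  obtain ⟨k, rfl⟩ : ∃ k, n = k + 2 := ⟨n - 2, by omega⟩
  intro hsq
  set g : (ZMod p)[X] := (It p (k + 1)).comp (X + C 1) with hg
  have e : It p (k + 2) = expand (ZMod p) 2 g := by
    rw [It_succ', hg, expand_eq_comp_X_pow, comp_assoc]; simp
  have hgi : Irreducible g := by
    have h1 := h (k + 1) (by omega)
    have h2 := (MulEquiv.irreducible_iff (algEquivAevalXAddC (1 : ZMod p))).2 h1
    have h3 : algEquivAevalXAddC (1 : ZMod p) (It p (k + 1)) = g := by
      rw [hg, algEquivAevalXAddC_apply, aeval_def, comp]; rfl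
    rwa [h3] at h2
  obtain ⟨m1, m2⟩ := It_monic_deg p (k + 1)
  have hgm : g.Monic := m1.comp_X_add_C 1
  have hgd : g.natDegree = 2 ^ (k + 1) := by
    rw [hg, natDegree_comp, natDegree_X_add_C, mul_one, m2]
  refine not_irr_expand p hp g hgi hgm ?_ ?_ (e ▸ h (k + 2) (by omega))
  · rw [hgd]; exact (even_two).pow_of_ne_zero (by omega)
  · have : g.coeff 0 = ((orb (k + 2) : ℕ) : ZMod p) := by
      rw [coeff_zero_eq_eval_zero, hg, eval_comp]; simp; exact It_eval p (k + 1)
    rw [this]; exact hsq

end Pool.Agent.W401S
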