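import Mathlib
import Pool.Agent.W401S.Crit

/-! The critical orbit of `x^2+1` modulo a stable prime is a cycle through `-1`. -/

set_option autoImplicit false

namespace Pool.Agent.W401S

/-- the critical orbit modulo `p` -/
def o (p : ℕ) (n : ℕ) : ZMod p := ((orb n : ℕ) : ZMod p)

lemma o_succ (p n : ℕ) : o p (n + 1) = o p n ^ 2 + 1 := by simp [o, orb]

lemma o_one (p : ℕ) : o p 1 = 1 := by simp [o, orb]

lemma nonsq_mul {p : ℕ} [Fact p.Prime] {a b : ZMod p} (ha : ¬ IsSquare a) (hb : ¬ IsSquare b) :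
    IsSquare (a * b) := by
  by_cases hp : p = 2
  · subst hp
    exact absurd (FiniteField.isSquare_of_char_two (by rw [ZMod.ringChar_zmod_n]) a) ha
  have hc : ringChar (ZMod p) ≠ 2 := by rw [ZMod.ringChar_zmod_n]; exact hp
  have ha0 : a ≠ 0 := by rintro rfl; exact ha (IsSquare.zero)
  have hb0 : b ≠ 0 := by rintro rfl; exact hb (IsSquare.zero)
  rw [← quadraticChar_one_iff_isSquare (mul_ne_zero ha0 hb0), map_mul]
  have h1 : quadraticChar (ZMod p) a = -1 := quadraticChar_neg_one_iff_not_isSquare.2 ha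
  have h2 : quadraticChar (ZMod p) b = -1 := quadraticChar_neg_one_iff_not_isSquare.2 hb
  rw [h1, h2]; norm_num

/-- If `p` is stable, then for some `m ≥ 2` the number `x_m` is `-1` modulo `p` and `x_{m+1}` is `2`;
so the orbit `x_2, x_3, …` is purely periodic. -/
theorem exists_neg_one {p : ℕ} [Fact p.Prime] (h : Stable p) : ∃ m : ℕ, 2 ≤ m ∧ o p m = -1 := by
  have h1 : ¬ IsSquare (-1 : ZMod p) := neg_one_nonsq h
  have h2 : ∀ n, 2 ≤ n → ¬ IsSquare (o p n) := fun n hn => orb_nonsq h n hn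
  -- backwards cancellation among indices at least two
  have back : ∀ a b : ℕ, 2 ≤ a → 2 ≤ b → o p (a + 1) = o p (b + 1) → o p a = o p b := by
    intro a b ha hb hab
    rw [o_succ, o_succ, add_left_inj, sq_eq_sq_iff_eq_or_eq_neg] at hab
    rcases hab with hab | hab
    · exact hab
    · exfalso
      have h3 := nonsq_mul h1 (h2 b hb)
      rw [neg_one_mul, ← hab] at h3
      exact h2 a ha h3
  -- pigeonhole
  have hni : ¬ Function.Injective (fun n : ℕ => o p (n + 2)) := not_injective_infinite_finite _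
  rw [Function.Injective] at hni
  push Not at hni
  obtain ⟨a, b, hab, hne⟩ := hni
  wlog hlt : a < b generalizing a b
  · exact this b a hab.symm (Ne.symm hne) (lt_of_le_of_ne (not_lt.1 hlt) (Ne.symm hne))
  have key : ∀ t a b : ℕ, a < b → a = t → o p (a + 2) = o p (b + 2) → ∃ L, 1 ≤ L ∧ o p 2 = o p (L + 2) := by
    intro t
    induction t with
    | zero => intro a b hab ha hh; subst ha; exact ⟨b, hab, by simpa using hh⟩
    | succ t ih =>
      intro a b hab ha hh
      refine ih (a - 1) (b - 1) (by omega) (by omega) (back _ _ (by omega) (by omega) ?_)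
      rw [show a - 1 + 2 + 1 = a + 2 by omega, show b - 1 + 2 + 1 = b + 2 by omega]; exact hh
  obtain ⟨L, hL, hh⟩ := key a a b hlt rfl hab
  have h3 : o p (1 + 1) = o p ((L + 1) + 1) := by simpa using hh
  rw [o_succ p 1, o_succ p (L + 1), add_left_inj, o_one, sq_eq_sq_iff_eq_or_eq_neg] at h3
  rcases h3 with h3 | h3
  · exfalso
    refine h2 (L + 1) (by omega) ?_
    rw [← h3]; exact IsSquare.one
  · exact ⟨L + 1, by omega, by rw [h3, neg_neg]⟩

/-- the same as a divisibility -/
theorem exists_dvd {p : ℕ} [Fact p.Prime] (h : Stable p) : ∃ m : ℕ, 2 ≤ m ∧ p ∣ orb m + 1 := by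
  obtain ⟨m, hm, h1⟩ := exists_neg_one h
  refine ⟨m, hm, ?_⟩
  rw [← CharP.cast_eq_zero_iff (ZMod p) p]
  push_cast
  rw [show ((orb m : ℕ) : ZMod p) = o p m from rfl, h1]
  ring

end Pool.Agent.W401S
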