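import Mathlib
import Pool.Agent.W401S.Orbit

/-! Residue classes of stable primes. -/

set_option autoImplicit false

open scoped NumberTheorySymbols
open Finset

namespace Pool.Agent.W401S

lemma orb_mod_two (n : ℕ) : orb (2 * n) % 2 = 0 ∧ orb (2 * n + 1) % 2 = 1 := by
  induction n with
  | zero => simp [orb]
  | succ n ih =>
    obtain ⟨h1, h2⟩ := ih
    have e1 : orb (2 * (n + 1)) = orb (2 * n + 1) ^ 2 + 1 := rfl
    have e2 : orb (2 * (n + 1) + 1) = orb (2 * (n + 1)) ^ 2 + 1 := rfl
    have e3 : orb (2 * (n + 1)) % 2 = 0 := by rw [e1, Nat.add_mod, Nat.pow_mod, h2]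
    exact ⟨e3, by rw [e2, Nat.add_mod, Nat.pow_mod, e3]⟩

lemma orb_mod_four {n : ℕ} (hn : Odd n) : orb n % 4 = 1 := by
  obtain ⟨k, rfl⟩ := hn
  have e2 : orb (2 * k + 1) = orb (2 * k) ^ 2 + 1 := rfl
  obtain ⟨t, ht⟩ : 2 ∣ orb (2 * k) := Nat.dvd_of_mod_eq_zero (orb_mod_two k).1
  rw [e2, ht, mul_pow]
  omega

lemma orb_mod_three {n : ℕ} (hn : 2 ≤ n) : orb n % 3 = 2 := by
  induction n, hn using Nat.le_induction with
  | base => rfl
  | succ n hn ih =>
    have e : orb (n + 1) = orb n ^ 2 + 1 := rfl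
    rw [e, Nat.add_mod, Nat.pow_mod, ih]

lemma orb_pos (n : ℕ) : 0 < orb (n + 1) := by simp [orb]

lemma orb_iter (r n : ℕ) : (fun z : ZMod r => z ^ 2 + 1)^[n] 0 = ((orb n : ℕ) : ZMod r) := by
  induction n with
  | zero => simp [orb]
  | succ n ih => rw [Function.iterate_succ_apply', ih]; simp [orb]

lemma orb_coprime {m n : ℕ} (h : Nat.Coprime m n) : Nat.Coprime (orb m) (orb n) := by
  by_contra hc
  obtain ⟨r, hr, h1, h2⟩ := Nat.Prime.not_coprime_iff_dvd.1 hc
  have : Fact r.Prime := ⟨hr⟩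
  have p1 : Function.IsPeriodicPt (fun z : ZMod r => z ^ 2 + 1) m 0 := by
    rw [Function.IsPeriodicPt, Function.IsFixedPt, orb_iter]
    exact (CharP.cast_eq_zero_iff (ZMod r) r _).2 h1
  have p2 : Function.IsPeriodicPt (fun z : ZMod r => z ^ 2 + 1) n 0 := by
    rw [Function.IsPeriodicPt, Function.IsFixedPt, orb_iter]
    exact (CharP.cast_eq_zero_iff (ZMod r) r _).2 h2
  have p3 := p1.gcd p2
  rw [Nat.Coprime] at h
  rw [h, Function.IsPeriodicPt, Function.IsFixedPt, orb_iter] at p3
  simp [orb] at p3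

/-- the Jacobi symbols at a stable prime -/
lemma jac_stable {p : ℕ} [Fact p.Prime] (h : Stable p) {l : ℕ} (hl : Odd l) (hl2 : 2 ≤ l) :
    jacobiSym (p : ℤ) (orb l) = -1 := by
  have hp2 : p ≠ 2 := by rintro rfl; exact stable_ne_two h
  have hpo : Odd p := (Fact.out : p.Prime).odd_of_ne_two hp2
  rw [← jacobiSym.quadratic_reciprocity_one_mod_four (orb_mod_four hl) hpo,
    ← jacobiSym.legendreSym.to_jacobiSym, legendreSym.eq_neg_one_iff]
  have := orb_nonsq h l hl2
  simpa using this

/-- residues with symbol `-1` -/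
noncomputable def A (b : ℕ) : Finset ℕ := (range b).filter fun r => jacobiSym (r : ℤ) b = -1

lemma card_A {b : ℕ} (h4 : b % 4 = 1) (h3 : b % 3 = 2) : 2 * (A b).card ≤ Nat.totient b := by
  have hb : 0 < b := by omega
  have : NeZero b := ⟨hb.ne'⟩
  have hJ3 : jacobiSym 3 b = -1 := by
    have h1 := jacobiSym.quadratic_reciprocity_one_mod_four (a := b) (b := 3) h4 (by decide)
    have h2 : jacobiSym (b : ℤ) 3 = -1 := by
      rw [jacobiSym.mod_left, show ((b : ℤ) % ((3 : ℕ) : ℤ)) = 2 by omega]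
      norm_num
    rw [← h2, h1]; norm_num
  have hc3 : Nat.Coprime 3 b := by
    rw [Nat.Prime.coprime_iff_not_dvd Nat.prime_three]; omega
  set B : Finset ℕ := (range b).filter fun r => jacobiSym (r : ℤ) b = 1 with hB
  have hAB : (A b).card ≤ B.card := by
    refine card_le_card_of_injOn (fun r => (3 * r) % b) ?_ ?_
    · intro r hr
      have hr' : r ∈ A b := hr
      rw [A, mem_filter] at hr'
      have : (3 * r) % b ∈ B := by
        rw [hB, mem_filter, mem_range]
        refine ⟨Nat.mod_lt _ hb, ?_⟩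
        push_cast
        rw [← jacobiSym.mod_left, jacobiSym.mul_left, hr'.2, hJ3]; norm_num
      exact this
    · intro r hr s hs hrs
      have hr' : r ∈ A b := hr
      have hs' : s ∈ A b := hs
      rw [A, mem_filter, mem_range] at hr' hs'
      have h1 : 3 * r ≡ 3 * s [MOD b] := hrs
      have h2 : r ≡ s [MOD b] := Nat.ModEq.cancel_left_of_coprime (by rw [Nat.gcd_comm]; exact hc3) h1
      rw [Nat.ModEq, Nat.mod_eq_of_lt hr'.1, Nat.mod_eq_of_lt hs'.1] at h2
      exact h2
  have hdisj : Disjoint (A b) B := by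
    rw [disjoint_left]
    intro r h1 h2
    rw [A, mem_filter] at h1
    rw [hB, mem_filter] at h2
    rw [h1.2] at h2
    norm_num at h2
  have hsub : A b ∪ B ⊆ (range b).filter (Nat.Coprime b) := by
    intro r hr
    have h1 : r < b ∧ jacobiSym (r : ℤ) b ≠ 0 := by
      rcases mem_union.1 hr with h | h
      · rw [A, mem_filter, mem_range] at h; exact ⟨h.1, by rw [h.2]; norm_num⟩
      · rw [hB, mem_filter, mem_range] at h; exact ⟨h.1, by rw [h.2]; norm_num⟩
    rw [mem_filter, mem_range]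
    refine ⟨h1.1, ?_⟩
    by_contra hc
    refine h1.2 (jacobiSym.eq_zero_iff_not_coprime.2 ?_)
    intro h; exact hc (by rw [Nat.coprime_comm]; simpa using h)
  have h5 := card_le_card hsub
  rw [card_union_of_disjoint hdisj] at h5
  have h6 : Nat.totient b = ((range b).filter (Nat.Coprime b)).card := rfl
  rw [← h6] at h5
  omega

/-- product of the `x_l`, `l` in `S` -/
def Q (S : Finset ℕ) : ℕ := ∏ l ∈ S, orb l

/-- the residues modulo `Q S` of the stable primes -/
noncomputable def R (S : Finset ℕ) : Finset ℕ :=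
  (range (Q S)).filter fun r => ∀ l ∈ S, jacobiSym (r : ℤ) (orb l) = -1

lemma jac_congr {r s b : ℕ} (h : r % b = s % b) : jacobiSym (r : ℤ) b = jacobiSym (s : ℤ) b := by
  rw [jacobiSym.mod_left (r : ℤ), jacobiSym.mod_left (s : ℤ)]
  congr 1
  exact_mod_cast congrArg (fun x : ℕ => (x : ℤ)) h

lemma card_R (S : Finset ℕ) (hS : ∀ l ∈ S, l.Prime ∧ Odd l) :
    2 ^ S.card * (R S).card ≤ Nat.totient (Q S) ∧ 0 < Q S := by
  induction S using Finset.induction_on with
  | empty => simp [R, Q]
  | insert l S hl ih =>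
    obtain ⟨i1, i2⟩ := ih fun l' h' => hS l' (mem_insert_of_mem h')
    have hlp := hS l (mem_insert_self _ _)
    have hl1 : 1 ≤ l := hlp.1.one_lt.le
    have hpos : 0 < orb l := by
      obtain ⟨k, rfl⟩ : ∃ k, l = k + 1 := ⟨l - 1, by omega⟩
      exact orb_pos k
    have hcop : Nat.Coprime (orb l) (Q S) := by
      refine Nat.Coprime.prod_right fun l' h' => orb_coprime ?_
      refine (Nat.coprime_primes hlp.1 (hS l' (mem_insert_of_mem h')).1).2 ?_
      rintro rfl; exact hl h'
    have hQ : Q (insert l S) = orb l * Q S := by rw [Q, prod_insert hl]; rfl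
    have hA := card_A (orb_mod_four hlp.2) (orb_mod_three hlp.1.two_le)
    have hinj : (R (insert l S)).card ≤ (A (orb l) ×ˢ R S).card := by
      refine card_le_card_of_injOn (fun r => (r % orb l, r % Q S)) ?_ ?_
      · intro r hr
        have hr' : r ∈ R (insert l S) := hr
        rw [R, mem_filter] at hr'
        have : (r % orb l, r % Q S) ∈ A (orb l) ×ˢ R S := by
          rw [mem_product, A, R, mem_filter, mem_filter, mem_range, mem_range]
          refine ⟨⟨Nat.mod_lt _ hpos, ?_⟩, Nat.mod_lt _ i2, fun l' h' => ?_⟩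
          · rw [← hr'.2 l (mem_insert_self _ _)]
            exact jac_congr (Nat.mod_mod _ _)
          · rw [← hr'.2 l' (mem_insert_of_mem h')]
            exact jac_congr (Nat.mod_mod_of_dvd _ (dvd_prod_of_mem _ h'))
        exact this
      · intro r hr s hs hrs
        have hr' : r ∈ R (insert l S) := hr
        have hs' : s ∈ R (insert l S) := hs
        rw [R, mem_filter, mem_range, hQ] at hr' hs'
        have e1 : r ≡ s [MOD orb l] := congrArg Prod.fst hrs
        have e2 : r ≡ s [MOD Q S] := congrArg Prod.snd hrs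
        have e3 := (Nat.modEq_and_modEq_iff_modEq_mul hcop).1 ⟨e1, e2⟩
        rw [Nat.ModEq, Nat.mod_eq_of_lt hr'.1, Nat.mod_eq_of_lt hs'.1] at e3
        exact e3
    rw [card_product] at hinj
    refine ⟨?_, by rw [hQ]; exact Nat.mul_pos hpos i2⟩
    rw [hQ, Nat.totient_mul hcop, card_insert_of_notMem hl, pow_succ]
    calc 2 ^ S.card * 2 * (R (insert l S)).card
        ≤ 2 ^ S.card * 2 * ((A (orb l)).card * (R S).card) := Nat.mul_le_mul_left _ hinj
      _ = (2 * (A (orb l)).card) * (2 ^ S.card * (R S).card) := by ring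
      _ ≤ _ := Nat.mul_le_mul hA i1

/-- every stable prime lies in one of these classes -/
lemma stable_mem {p : ℕ} [Fact p.Prime] (h : Stable p) (S : Finset ℕ)
    (hS : ∀ l ∈ S, l.Prime ∧ Odd l) : p % Q S ∈ R S := by
  rw [R, mem_filter, mem_range]
  refine ⟨Nat.mod_lt _ (card_R S hS).2, fun l hl => ?_⟩
  rw [← jac_stable h (hS l hl).2 (hS l hl).1.two_le]
  exact jac_congr (Nat.mod_mod_of_dvd _ (dvd_prod_of_mem _ hl))

end Pool.Agent.W401S
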