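import Mathlib
import Pool.Agent.W401S.Count
import Pool.Agent.Helper602.MK.J3

/-! Counting stable primes. -/

set_option autoImplicit false

open Finset

namespace Pool.Agent.W401S

open Classical in
theorem count_block : ∃ C : ℝ, 1 ≤ C ∧ ∀ (S : Finset ℕ), (∀ l ∈ S, l.Prime ∧ Odd l) → ∀ K : ℕ, 2 ≤ K →
    (((range (K * Q S)).filter fun p => p.Prime ∧ Stable p).card : ℝ) ≤
      C * (K * Q S : ℕ) / (2 ^ S.card * Real.log K) := by
  obtain ⟨C, hC, hBT⟩ := Pool.Agent.Helper602.MK.BTLib.brun_titchmarsh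
  refine ⟨C, hC, fun S hS K hK => ?_⟩
  obtain ⟨hR, hQ⟩ := card_R S hS
  have hsub : ((range (K * Q S)).filter fun p => p.Prime ∧ Stable p) ⊆
      (R S).biUnion fun r => ((range K).filter fun k => (r + k * Q S).Prime).image fun k => r + k * Q S := by
    intro p hp
    rw [mem_filter, mem_range] at hp
    have : Fact p.Prime := ⟨hp.2.1⟩
    have e : p % Q S + p / Q S * Q S = p := Nat.mod_add_div' p (Q S)
    rw [mem_biUnion]
    refine ⟨p % Q S, stable_mem hp.2.2 S hS, ?_⟩
    rw [mem_image]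
    refine ⟨p / Q S, ?_, e⟩
    rw [mem_filter, mem_range, e]
    exact ⟨(Nat.div_lt_iff_lt_mul hQ).2 hp.1, hp.2.1⟩
  have h1 : ((range (K * Q S)).filter fun p => p.Prime ∧ Stable p).card ≤
      ∑ r ∈ R S, ((range K).filter fun k => (r + k * Q S).Prime).card :=
    (card_le_card hsub).trans (card_biUnion_le.trans (sum_le_sum fun r _ => card_image_le))
  have hφ : (0 : ℝ) < Nat.totient (Q S) := by exact_mod_cast Nat.totient_pos.2 hQ
  have hK0 : (2 : ℝ) ≤ K := by exact_mod_cast hK
  have hlog : 0 < Real.log K := Real.log_pos (by linarith)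
  have h2 : (((range (K * Q S)).filter fun p => p.Prime ∧ Stable p).card : ℝ) ≤
      (R S).card * (C * ((Q S : ℝ) / (Nat.totient (Q S) : ℝ)) * K / Real.log K) := by
    calc (((range (K * Q S)).filter fun p => p.Prime ∧ Stable p).card : ℝ)
        ≤ ((∑ r ∈ R S, ((range K).filter fun k => (r + k * Q S).Prime).card : ℕ) : ℝ) := by
          exact_mod_cast h1
      _ ≤ ∑ r ∈ R S, (C * ((Q S : ℝ) / (Nat.totient (Q S) : ℝ)) * K / Real.log K) := by
          rw [Nat.cast_sum]
          exact sum_le_sum fun r _ => hBT r (Q S) K hQ hK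
      _ = _ := by rw [sum_const, nsmul_eq_mul]
  have h3 : ((R S).card : ℝ) ≤ (Nat.totient (Q S) : ℝ) / 2 ^ S.card := by
    rw [le_div_iff₀ (by positivity), mul_comm]
    exact_mod_cast hR
  refine h2.trans ((mul_le_mul_of_nonneg_right h3 (by positivity)).trans (le_of_eq ?_))
  push_cast
  field_simp

end Pool.Agent.W401S
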